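import Pool.Agent.H69.AP.Both

/-! The Ramsey numbers of almost all permutation matrices. -/

namespace Pool.Agent.Results.MP_4ef84e_co.AlmostAllPerm

open Pool.Agent.H68.RS

/-- For almost all permutations `π` of size `n` (a proportion tending to `1` as `n → ∞`) the Ramsey
number of the permutation matrix satisfies
`n² / (2^32 log n) ≤ R(P_π) ≤ 2^8 n² / log n`. -/
theorem result : Filter.Tendsto (fun n : ℕ =>
    (Nat.card {π : Equiv.Perm (Fin n) //
      (n : ℝ) ^ 2 / Real.log n / 2 ^ 32 ≤ (R (P π) : ℝ) ∧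
      (R (P π) : ℝ) ≤ 2 ^ 8 * ((n : ℝ) ^ 2 / Real.log n)} : ℝ) /
      n.factorial) Filter.atTop (nhds 1) :=
  Pool.Agent.H69.AP.both

end Pool.Agent.Results.MP_4ef84e_co.AlmostAllPerm
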