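import Pool.Agent.H76.TY.Param
import Pool.Agent.H76.TY.Upper

/-! Matrices with at most `d` 1-entries in each row and few non-zero columns: the exponent of the
largest `R(M)` is `2 + (d - 1) μ` for at most `n ^ μ` non-zero columns, `μ ≤ 1 / 2`. -/

namespace Pool.Agent.Results.MP_4ef84e_co.FewColumns

open Pool.Agent.H68.RS Filter

/-- (1) For all `n, d, m ≥ 1` and every `n × n` matrix `M` with at most `d` 1-entries in each row
and at most `m` non-zero columns, `R(M) ≤ n^2 (1 + m + ... + m^(d-1))`. (2) For `d ≥ 1`,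
`0 < μ ≤ 1/2` and every real `α < 2 + (d - 1) μ`, for all large `n` there is such an `M` with at
most `n^μ` non-zero columns and `R(M) ≥ n^α`. -/
theorem result : ∀ d : ℕ, 1 ≤ d →
    (∀ n m : ℕ, 1 ≤ n → 1 ≤ m → ∀ M : Fin n → Fin n → Prop,
      (∀ r, {c | M r c}.ncard ≤ d) → {c | ∃ r, M r c}.ncard ≤ m →
      R M ≤ n ^ 2 * ∑ j ∈ Finset.range d, m ^ j) ∧
    ∀ μ : ℝ, 0 < μ → μ ≤ 1 / 2 → ∀ α : ℝ, α < 2 + ((d : ℝ) - 1) * μ →
      ∀ᶠ n : ℕ in atTop, ∃ M : Fin n → Fin n → Prop, (∀ r, {c | M r c}.ncard ≤ d) ∧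
        ({c | ∃ r, M r c}.ncard : ℝ) ≤ (n : ℝ) ^ μ ∧ (n : ℝ) ^ α ≤ R M := by
  intro d hd
  exact ⟨fun n m hn hm M hM hMc => Pool.Agent.H76.TY.R_le_cols hn hd hm M hM hMc,
    fun μ hμ0 hμ α hα => Pool.Agent.H76.TY.exponent_cols hd hμ0 hμ hα⟩

end Pool.Agent.Results.MP_4ef84e_co.FewColumns
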