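import Pool.Agent.H65.GD.Final

/-! The exponents of `f_d(n)` and of `g_d(n)` are linear in `d`. -/

namespace Pool.Agent.Results.MP_4ef84e_co.LinearExponent

open Pool.Agent.H68.RS Filter

/-- `g_d(n)`: the largest `R(M)` over `n × n` matrices with at most `d` 1-entries in each row and
in each column. -/
noncomputable def g (d n : ℕ) : ℕ :=
  sSup {m : ℕ | ∃ M : Fin n → Fin n → Prop, (∀ r, {c | M r c}.ncard ≤ d) ∧
    (∀ c, {r | M r c}.ncard ≤ d) ∧ R M = m}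

/-- For every `d ≥ 1` and all large `n`: `n^(d/100) ≤ g_d(n) ≤ f_d(n) ≤ n^(d+1)`. So both
exponents are of order `d`. -/
theorem result : ∀ d : ℕ, 1 ≤ d → ∀ᶠ n : ℕ in atTop,
    (n : ℝ) ^ ((d : ℝ) / 100) ≤ g d n ∧ g d n ≤ f d n ∧ f d n ≤ n ^ (d + 1) := by
  intro d hd
  filter_upwards [Pool.Agent.H65.GD.main d hd, eventually_ge_atTop 1] with n hn hn1
  have hbdd : BddAbove {m : ℕ | ∃ M : Fin n → Fin n → Prop,
      (∀ r, {c | M r c}.ncard ≤ d) ∧ R M = m} := by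
    refine ⟨n ^ (d + 1), ?_⟩
    rintro m ⟨M, hM, rfl⟩
    exact R_le hn1 M hM
  have hbdd2 : BddAbove {m : ℕ | ∃ M : Fin n → Fin n → Prop,
      (∀ r, {c | M r c}.ncard ≤ d) ∧ (∀ c, {r | M r c}.ncard ≤ d) ∧ R M = m} := by
    refine ⟨n ^ (d + 1), ?_⟩
    rintro m ⟨M, hM, _, rfl⟩
    exact R_le hn1 M hM
  refine ⟨?_, ?_, ?_⟩
  · obtain ⟨M, hM1, hM2, hM3⟩ := hn
    refine hM3.trans ?_
    have h1 : R M ≤ g d n := le_csSup hbdd2 ⟨M, hM1, hM2, rfl⟩
    exact_mod_cast h1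
  · unfold g f
    apply csSup_le
    · refine ⟨R (fun _ _ : Fin n => False), fun _ _ => False, ?_, ?_, rfl⟩
      · intro r
        simp
      · intro c
        simp
    · rintro m ⟨M, hM, _, rfl⟩
      exact le_csSup hbdd ⟨M, hM, rfl⟩
  · unfold f
    apply csSup_le
    · refine ⟨R (fun _ _ : Fin n => False), fun _ _ => False, ?_, rfl⟩
      intro r
      simp
    · rintro m ⟨M, hM, rfl⟩
      exact R_le hn1 M hM

end Pool.Agent.Results.MP_4ef84e_co.LinearExponent
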