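import Pool.Agent.H69.FK.Reduce
import Pool.Agent.H76.TY.Param

/-! The growth of `f_d(n)` (at most `d` 1-entries in each row): `f_d(n) = n^(d/2 + o(d))`. -/

namespace Pool.Agent.Results.MP_4ef84e_co.SharpRowExponent

open Pool.Agent.H68.RS Filter

/-- (1) For every `δ > 0` there is `a` such that for every `d`, `f_d(n) ≤ n^((1/2 + δ) d + a)` for
all large `n`. (2) For every `d ≥ 1` and every real `α < (d + 3) / 2`, `n^α ≤ f_d(n)` for all large
`n`. (3) For all `n, d ≥ 1`: `R(M) ≤ n^(d+1)` for every `n × n` matrix `M` with at most `d`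
1-entries in each row, so `f_d(n) ≤ n^(d+1)`. -/
theorem result :
    (∀ δ : ℝ, 0 < δ → ∃ a : ℝ, ∀ d : ℕ, ∀ᶠ n : ℕ in atTop,
      (f d n : ℝ) ≤ (n : ℝ) ^ ((1 / 2 + δ) * d + a)) ∧
    (∀ d : ℕ, 1 ≤ d → ∀ α : ℝ, α < ((d : ℝ) + 3) / 2 → ∀ᶠ n : ℕ in atTop, (n : ℝ) ^ α ≤ f d n) ∧
    ∀ d n : ℕ, 1 ≤ d → 1 ≤ n →
      (∀ M : Fin n → Fin n → Prop, (∀ r, {c | M r c}.ncard ≤ d) → R M ≤ n ^ (d + 1)) ∧
      f d n ≤ n ^ (d + 1) := by
  refine ⟨?_, fun d hd α hα => Pool.Agent.H76.TY.exponent hd hα, ?_⟩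
  · intro δ hδ
    obtain ⟨a, ha⟩ := Pool.Agent.H69.FK.upper (min δ (1 / 2)) (lt_min hδ (by norm_num))
      (min_le_right _ _)
    refine ⟨a, fun d => ?_⟩
    filter_upwards [ha d, eventually_ge_atTop 1] with n hn hn1
    refine hn.trans ?_
    apply Real.rpow_le_rpow_of_exponent_le (by exact_mod_cast hn1)
    have h1 := min_le_left δ (1 / 2)
    have h2 : (0 : ℝ) ≤ d := Nat.cast_nonneg d
    nlinarith
  · intro d n _ hn
    refine ⟨fun M hM => R_le hn M hM, ?_⟩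
    unfold f
    apply csSup_le
    · refine ⟨R (fun _ _ : Fin n => False), fun _ _ => False, ?_, rfl⟩
      intro r
      simp
    · rintro m ⟨M, hM, rfl⟩
      exact R_le hn M hM

end Pool.Agent.Results.MP_4ef84e_co.SharpRowExponent
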